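import Mathlib
import Pool.Graph.R_seed8.Helper296.Bourin

/-!
Bourin's inequality for `m` positive semidefinite matrices, with complex coefficients of modulus
at most one (or contractions) on the mixed products.
-/
set_option autoImplicit false
open scoped ComplexOrder MatrixOrder Matrix.Norms.L2Operator
open Matrix
namespace Pool.Agent.B4777
open Pool.Agent.Helper296.Bourin

/-- operator concavity of `x ^ r` for `m` matrices -/
theorem concm {n m : ℕ} (A : Fin m → Matrix (Fin n) (Fin n) ℂ) (hA : ∀ i, 0 ≤ A i) (r : ℝ)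
    (hr0 : 0 ≤ r) (hr1 : r ≤ 1) (hm : 2 ≤ m) :
    ∑ i, A i ^ r ≤ (m : ℝ) • ((1 / (m : ℝ)) • ∑ i, A i) ^ r := by
  have hm0 : (0 : ℝ) < m := by
    have : 0 < m := by omega
    exact_mod_cast this
  have h0 := CFC.concaveOn_rpow (A := Matrix (Fin n) (Fin n) ℂ) (p := r) ⟨hr0, hr1⟩
  have h : ∑ i : Fin m, (1 / (m : ℝ)) • (A i) ^ r ≤ (∑ i : Fin m, (1 / (m : ℝ)) • A i) ^ r := by
    refine h0.le_map_sum (t := Finset.univ) (w := fun _ => 1 / (m : ℝ)) (p := A) ?_ ?_ ?_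
    · intro i _
      positivity
    · simp only [Finset.sum_const, Finset.card_univ, Fintype.card_fin, nsmul_eq_mul]
      field_simp
    · intro i _
      exact Set.mem_Ici.2 (hA i)
  rw [← Finset.smul_sum, ← Finset.smul_sum] at h
  have h2 := smul_le_smul_of_nonneg_left h hm0.le
  rw [smul_smul] at h2
  have h3 : (m : ℝ) * (1 / m) = 1 := by field_simp
  rw [h3, one_smul] at h2
  exact h2

/-- the linear functional `X ↦ Re Tr (Gᴴ X G')` commutes with finite sums -/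
theorem phi_sum {n k : ℕ} {ι : Type*} (s : Finset ι) (X : ι → Matrix (Fin n) (Fin n) ℂ)
    (G G' : Matrix (Fin n) (Fin k) ℂ) :
    (Gᴴ * (∑ i ∈ s, X i) * G').trace.re = ∑ i ∈ s, (Gᴴ * X i * G').trace.re := by
  rw [Matrix.mul_sum, Matrix.sum_mul, Matrix.trace_sum, Complex.re_sum]

theorem sum_erase_const {m : ℕ} (f : Fin m → ℝ) :
    ∑ i, ∑ j ∈ Finset.univ.erase i, f j = ((m : ℝ) - 1) * ∑ j, f j := by
  have h1 : ∀ i : Fin m, ∑ j ∈ Finset.univ.erase i, f j = ∑ j, f j - f i := by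
    intro i
    rw [← Finset.add_sum_erase Finset.univ f (Finset.mem_univ i)]
    ring
  simp only [h1, Finset.sum_sub_distrib, Finset.sum_const, Finset.card_univ, Fintype.card_fin,
    nsmul_eq_mul]
  ring

theorem mboundm {n k m : ℕ} (hm : 2 ≤ m) (A : Fin m → Matrix (Fin n) (Fin n) ℂ)
    (hA : ∀ i, (A i).PosDef)
    (t c : ℝ) (ht0 : 0 < t) (ht1 : t ≤ 1 / 2) (G : Matrix (Fin n) (Fin k) ℂ) (hG : Gᴴ * G = 1)
    (hc : ∀ W : Matrix (Fin n) (Fin k) ℂ, Wᴴ * W = 1 → (Wᴴ * (∑ i, A i) * W).trace.re ≤ c) :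
    ∑ i, ∑ j ∈ Finset.univ.erase i,
      (Gᴴ * (A i ^ t * A j ^ (1 - 2 * t) * A i ^ t) * G).trace.re ≤ ((m : ℝ) - 1) * c := by
  have hm2 : (2 : ℝ) ≤ m := by exact_mod_cast hm
  have hm0 : (0 : ℝ) < m := by linarith
  have hA0 : ∀ i, 0 ≤ A i := fun i => (hA i).posSemidef.nonneg
  have hTc := hc G hG
  rw [phi_sum] at hTc
  rcases ht1.eq_or_lt with h | hlt
  · -- `t = 1/2`
    subst h
    have h1 : ∀ i j : Fin m, A i ^ (1 / 2 : ℝ) * A j ^ (1 - 2 * (1 / 2) : ℝ) * A i ^ (1 / 2 : ℝ)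
        = A i := by
      intro i j
      have e : (1 - 2 * (1 / 2) : ℝ) = 0 := by norm_num
      rw [e, CFC.rpow_zero (A j) (hA0 j), mul_one]
      exact j8_half (A i) (hA i)
    simp only [h1]
    have h2 : ∀ i : Fin m, ∑ j ∈ Finset.univ.erase i, (Gᴴ * A i * G).trace.re
        = ((m : ℝ) - 1) * (Gᴴ * A i * G).trace.re := by
      intro i
      rw [Finset.sum_const, Finset.card_erase_of_mem (Finset.mem_univ i), Finset.card_univ,
        Fintype.card_fin, nsmul_eq_mul, Nat.cast_sub (by omega)]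
      simp
    simp only [h2]
    rw [← Finset.mul_sum]
    exact mul_le_mul_of_nonneg_left hTc (by linarith)
  · have hS : ((1 / (m : ℝ)) • (∑ i, A i)).PosSemidef :=
      (Matrix.posSemidef_sum _ (fun i _ => (hA i).posSemidef)).smul (by positivity)
    have hcon := concm A hA0 (1 - 2 * t) (by linarith) (by linarith) hm
    set S := (1 / (m : ℝ)) • (∑ i, A i) with hSdef
    have hc2 : ∀ W : Matrix (Fin n) (Fin k) ℂ, Wᴴ * W = 1 → (Wᴴ * S * W).trace.re ≤ c / m := by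
      intro W hW
      have := hc W hW
      rw [hSdef, q296_trsmul]
      rw [div_mul_eq_mul_div, one_mul]
      exact div_le_div_of_nonneg_right this hm0.le
    set T : ℝ := ∑ i, (Gᴴ * A i * G).trace.re with hT
    have hST : (Gᴴ * S * G).trace.re = T / m := by
      rw [hSdef, q296_trsmul, phi_sum]
      ring
    have hrow : ∀ i, ∑ j, (Gᴴ * (A i ^ t * A j ^ (1 - 2 * t) * A i ^ t) * G).trace.re ≤
        (m : ℝ) / 2 * (4 * t * (Gᴴ * A i * G).trace.re + (1 - 2 * t) * (T / m + c / m)) := by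
      intro i
      have z := zlem (A i) S (hA i) hS t (c / m) ht0 hlt G hG hc2
      have mi := q296_trmono (q296_conj (A i) _ _ t hcon) G
      rw [mul_smul_comm, smul_mul_assoc, q296_trsmul] at mi
      rw [Finset.mul_sum, Finset.sum_mul, phi_sum] at mi
      rw [hST] at z
      have : (m : ℝ) * (Gᴴ * (A i ^ t * S ^ (1 - 2 * t) * A i ^ t) * G).trace.re ≤
          (m : ℝ) / 2 * (4 * t * (Gᴴ * A i * G).trace.re + (1 - 2 * t) * (T / m + c / m)) := by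
        have h := mul_le_mul_of_nonneg_left z (by positivity : (0 : ℝ) ≤ (m : ℝ) / 2)
        linarith
      exact mi.trans this
    have hdiag : ∀ i, (Gᴴ * (A i ^ t * A i ^ (1 - 2 * t) * A i ^ t) * G).trace.re
        = (Gᴴ * A i * G).trace.re := by
      intro i
      rw [q296_split (A i) (hA i) t]
    have hoff : ∀ i, ∑ j ∈ Finset.univ.erase i,
        (Gᴴ * (A i ^ t * A j ^ (1 - 2 * t) * A i ^ t) * G).trace.re =
        ∑ j, (Gᴴ * (A i ^ t * A j ^ (1 - 2 * t) * A i ^ t) * G).trace.re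
          - (Gᴴ * A i * G).trace.re := by
      intro i
      rw [← Finset.add_sum_erase Finset.univ _ (Finset.mem_univ i), hdiag i]
      ring
    have hsum : ∑ i, ∑ j ∈ Finset.univ.erase i,
        (Gᴴ * (A i ^ t * A j ^ (1 - 2 * t) * A i ^ t) * G).trace.re ≤
        ∑ i : Fin m, ((m : ℝ) / 2 * (4 * t * (Gᴴ * A i * G).trace.re
          + (1 - 2 * t) * (T / m + c / m)) - (Gᴴ * A i * G).trace.re) := by
      refine Finset.sum_le_sum fun i _ => ?_
      rw [hoff i]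
      linarith [hrow i]
    have hval : ∑ i : Fin m, ((m : ℝ) / 2 * (4 * t * (Gᴴ * A i * G).trace.re
          + (1 - 2 * t) * (T / m + c / m)) - (Gᴴ * A i * G).trace.re)
        = (m : ℝ) / 2 * (4 * t * T + (1 - 2 * t) * (T + c)) - T := by
      rw [Finset.sum_sub_distrib, ← Finset.mul_sum, Finset.sum_add_distrib, ← Finset.mul_sum,
        ← hT, Finset.sum_const, Finset.card_univ, Fintype.card_fin, nsmul_eq_mul]
      field_simp
    rw [hval] at hsum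
    have hcoef : 0 ≤ (m : ℝ) / 2 * (1 + 2 * t) - 1 := by nlinarith
    have h3 := mul_le_mul_of_nonneg_left hTc hcoef
    nlinarith [hsum, h3]

/-- Cauchy-Schwarz step with contractions. -/
theorem kyfan_pdm {n k m : ℕ} (hm : 2 ≤ m) (A : Fin m → Matrix (Fin n) (Fin n) ℂ)
    (hA : ∀ i, (A i).PosDef) (K : Fin m → Fin m → Matrix (Fin n) (Fin n) ℂ)
    (hK : ∀ i j, (K i j)ᴴ * K i j ≤ 1)
    (t c : ℝ) (ht0 : 0 < t) (ht1 : t ≤ 1 / 2) (G G' : Matrix (Fin n) (Fin k) ℂ) (hG : Gᴴ * G = 1)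
    (hG' : G'ᴴ * G' = 1)
    (hc : ∀ W : Matrix (Fin n) (Fin k) ℂ, Wᴴ * W = 1 → (Wᴴ * (∑ i, A i) * W).trace.re ≤ c) :
    (Gᴴ * (∑ i, ∑ j ∈ Finset.univ.erase i,
      A i ^ t * A j ^ ((1 - 2 * t) / 2) * K i j * A j ^ (1 / 2 : ℝ)) * G').trace.re
      ≤ ((m : ℝ) - 1) * c := by
  have hm2 : (2 : ℝ) ≤ m := by exact_mod_cast hm
  set s : ℝ := (1 - 2 * t) / 2 with hs
  have e2 : (1 - 2 * t : ℝ) = s + s := by rw [hs]; ring
  have hM := mboundm hm A hA t c ht0 ht1 G hG hc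
  have hc' := hc G' hG'
  rw [phi_sum] at hc'
  have hterm : ∀ i j : Fin m,
      (Gᴴ * (A i ^ t * A j ^ s * K i j * A j ^ (1 / 2 : ℝ)) * G').trace.re ≤
      (1 / 2) * ((Gᴴ * (A i ^ t * A j ^ (1 - 2 * t) * A i ^ t) * G).trace.re
        + (G'ᴴ * A j * G').trace.re) := by
    intro i j
    have hju : IsUnit (A j) := (hA j).isUnit
    have c1 := j8_cs ((A i ^ t * A j ^ s)ᴴ * G) (K i j * (A j ^ (1 / 2 : ℝ) * G'))
    have l1 : ((A i ^ t * A j ^ s)ᴴ * G)ᴴ * (K i j * (A j ^ (1 / 2 : ℝ) * G')) =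
        Gᴴ * (A i ^ t * A j ^ s * K i j * A j ^ (1 / 2 : ℝ)) * G' := by
      rw [conjTranspose_mul, conjTranspose_conjTranspose]
      simp only [Matrix.mul_assoc]
    have l3 : ((A i ^ t * A j ^ s)ᴴ * G)ᴴ * ((A i ^ t * A j ^ s)ᴴ * G) =
        Gᴴ * (A i ^ t * (A j ^ s * A j ^ s) * A i ^ t) * G := by
      rw [conjTranspose_mul, conjTranspose_conjTranspose, conjTranspose_mul, j8_herm, j8_herm]
      simp only [Matrix.mul_assoc]
    have l5 : (K i j * (A j ^ (1 / 2 : ℝ) * G'))ᴴ * (K i j * (A j ^ (1 / 2 : ℝ) * G')) =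
        (A j ^ (1 / 2 : ℝ) * G')ᴴ * ((K i j)ᴴ * K i j) * (A j ^ (1 / 2 : ℝ) * G') := by
      rw [conjTranspose_mul]
      simp only [Matrix.mul_assoc]
    have l6 := q296_trmono (hK i j) (A j ^ (1 / 2 : ℝ) * G')
    have l7 : (A j ^ (1 / 2 : ℝ) * G')ᴴ * (1 : Matrix (Fin n) (Fin n) ℂ) * (A j ^ (1 / 2 : ℝ) * G')
        = G'ᴴ * A j * G' := by
      rw [Matrix.mul_one, conjTranspose_mul, j8_herm, Matrix.mul_assoc,
        ← Matrix.mul_assoc (A j ^ (1 / 2 : ℝ)), j8_half (A j) (hA j), ← Matrix.mul_assoc]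
    rw [l7] at l6
    rw [l1, l3, l5] at c1
    rw [e2, CFC.rpow_add hju]
    linarith
  have h1 : (Gᴴ * (∑ i, ∑ j ∈ Finset.univ.erase i,
      A i ^ t * A j ^ s * K i j * A j ^ (1 / 2 : ℝ)) * G').trace.re ≤
      ∑ i, ∑ j ∈ Finset.univ.erase i,
        (1 / 2) * ((Gᴴ * (A i ^ t * A j ^ (1 - 2 * t) * A i ^ t) * G).trace.re
          + (G'ᴴ * A j * G').trace.re) := by
    rw [phi_sum]
    refine Finset.sum_le_sum fun i _ => ?_
    rw [phi_sum]
    exact Finset.sum_le_sum fun j _ => hterm i j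
  have h2 : ∑ i, ∑ j ∈ Finset.univ.erase i,
        (1 / 2) * ((Gᴴ * (A i ^ t * A j ^ (1 - 2 * t) * A i ^ t) * G).trace.re
          + (G'ᴴ * A j * G').trace.re) =
      (1 / 2) * (∑ i, ∑ j ∈ Finset.univ.erase i,
        (Gᴴ * (A i ^ t * A j ^ (1 - 2 * t) * A i ^ t) * G).trace.re
        + ((m : ℝ) - 1) * ∑ j, (G'ᴴ * A j * G').trace.re) := by
    rw [← sum_erase_const]
    simp only [← Finset.mul_sum, Finset.sum_add_distrib]
  rw [h2] at h1
  have h3 := mul_le_mul_of_nonneg_left hc' (by linarith : (0 : ℝ) ≤ (m : ℝ) - 1)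
  linarith


theorem lim1 {n : ℕ} (M : Matrix (Fin n) (Fin n) ℂ) (hM : 0 ≤ M) (s : ℝ) (hs : 0 ≤ s) :
    Filter.Tendsto (fun ε : ℝ => (M + (ε : ℂ) • (1 : Matrix (Fin n) (Fin n) ℂ)) ^ s)
      (nhdsWithin 0 (Set.Ioi 0)) (nhds (M ^ s)) := by
  have hpos : ∀ ε : ℝ, 0 < ε → 0 ≤ (M + (ε : ℂ) • (1 : Matrix (Fin n) (Fin n) ℂ)) := by
    intro ε hε
    exact Matrix.nonneg_iff_posSemidef.2 (Matrix.PosDef.posSemidef_add
      (Matrix.nonneg_iff_posSemidef.1 hM)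
      (Matrix.PosDef.one.smul (by exact_mod_cast hε))).posSemidef
  rcases hs.eq_or_lt with h | h
  · subst h
    rw [CFC.rpow_zero M hM]
    refine tendsto_const_nhds.congr' ?_
    filter_upwards [self_mem_nhdsWithin] with ε hε
    exact (CFC.rpow_zero _ (hpos ε hε)).symm
  · have h1 := (kp_cont (n := n) s h) M hM
    refine h1.tendsto.comp ?_
    rw [tendsto_nhdsWithin_iff]
    constructor
    · have h2 : Continuous (fun ε : ℝ => M + (ε : ℂ) • (1 : Matrix (Fin n) (Fin n) ℂ)) :=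
        continuous_const.add (Complex.continuous_ofReal.smul continuous_const)
      have h3 := (h2.tendsto 0).mono_left (nhdsWithin_le_nhds (s := Set.Ioi 0))
      simpa using h3
    · filter_upwards [self_mem_nhdsWithin] with ε hε
      exact hpos ε hε

/-- The Ky Fan form for positive semidefinite matrices. -/
theorem kyfan_psdm {n k m : ℕ} (hm : 2 ≤ m) (A : Fin m → Matrix (Fin n) (Fin n) ℂ)
    (hA : ∀ i, 0 ≤ A i) (K : Fin m → Fin m → Matrix (Fin n) (Fin n) ℂ)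
    (hK : ∀ i j, (K i j)ᴴ * K i j ≤ 1)
    (t c : ℝ) (ht0 : 0 < t) (ht1 : t ≤ 1 / 2) (G G' : Matrix (Fin n) (Fin k) ℂ) (hG : Gᴴ * G = 1)
    (hG' : G'ᴴ * G' = 1)
    (hc : ∀ W : Matrix (Fin n) (Fin k) ℂ, Wᴴ * W = 1 → (Wᴴ * (∑ i, A i) * W).trace.re ≤ c) :
    (Gᴴ * (∑ i, ∑ j ∈ Finset.univ.erase i,
      A i ^ t * A j ^ ((1 - 2 * t) / 2) * K i j * A j ^ (1 / 2 : ℝ)) * G').trace.re
      ≤ ((m : ℝ) - 1) * c := by
  have hpos : ∀ M : Matrix (Fin n) (Fin n) ℂ, 0 ≤ M → ∀ ε : ℝ, 0 < ε →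
      (M + (ε : ℂ) • (1 : Matrix (Fin n) (Fin n) ℂ)).PosDef := by
    intro M hM ε hε
    exact Matrix.PosDef.posSemidef_add (Matrix.nonneg_iff_posSemidef.1 hM)
      (Matrix.PosDef.one.smul (by exact_mod_cast hε))
  have key : ∀ ε : ℝ, 0 < ε →
      (Gᴴ * (∑ i, ∑ j ∈ Finset.univ.erase i,
        (A i + (ε : ℂ) • (1 : Matrix (Fin n) (Fin n) ℂ)) ^ t *
          (A j + (ε : ℂ) • (1 : Matrix (Fin n) (Fin n) ℂ)) ^ ((1 - 2 * t) / 2) * K i j *
          (A j + (ε : ℂ) • (1 : Matrix (Fin n) (Fin n) ℂ)) ^ (1 / 2 : ℝ)) * G').trace.re ≤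
        ((m : ℝ) - 1) * (c + m * k * ε) := by
    intro ε hε
    refine kyfan_pdm hm (fun i => A i + (ε : ℂ) • (1 : Matrix (Fin n) (Fin n) ℂ))
      (fun i => hpos (A i) (hA i) ε hε) K hK t _ ht0 ht1 G G' hG hG' ?_
    intro W hW
    have h1 : (∑ i, (A i + (ε : ℂ) • (1 : Matrix (Fin n) (Fin n) ℂ))) =
        (∑ i, A i) + ((m * ε : ℝ) : ℂ) • (1 : Matrix (Fin n) (Fin n) ℂ) := by
      rw [Finset.sum_add_distrib, Finset.sum_const, Finset.card_univ, Fintype.card_fin,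
        ← Nat.cast_smul_eq_nsmul ℂ, smul_smul]
      push_cast
      rfl
    rw [h1, Matrix.mul_add, Matrix.add_mul, Matrix.trace_add, Complex.add_re, Matrix.mul_smul,
      Matrix.smul_mul, Matrix.mul_one, hW, Matrix.trace_smul, Matrix.trace_one]
    have h2 := hc W hW
    simp only [Fintype.card_fin, smul_eq_mul]
    have h3 : (((m * ε : ℝ) : ℂ) * (k : ℂ)).re = m * k * ε := by
      rw [Complex.re_ofReal_mul, Complex.natCast_re]
      ring
    rw [h3]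
    linarith
  have hlim : Filter.Tendsto (fun ε : ℝ =>
      (Gᴴ * (∑ i, ∑ j ∈ Finset.univ.erase i,
        (A i + (ε : ℂ) • (1 : Matrix (Fin n) (Fin n) ℂ)) ^ t *
          (A j + (ε : ℂ) • (1 : Matrix (Fin n) (Fin n) ℂ)) ^ ((1 - 2 * t) / 2) * K i j *
          (A j + (ε : ℂ) • (1 : Matrix (Fin n) (Fin n) ℂ)) ^ (1 / 2 : ℝ)) * G').trace.re)
      (nhdsWithin 0 (Set.Ioi 0))
      (nhds (Gᴴ * (∑ i, ∑ j ∈ Finset.univ.erase i,
        A i ^ t * A j ^ ((1 - 2 * t) / 2) * K i j * A j ^ (1 / 2 : ℝ)) * G').trace.re) := by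
    have hφ : Continuous (fun M : Matrix (Fin n) (Fin n) ℂ => (Gᴴ * M * G').trace.re) := by
      fun_prop
    refine (hφ.tendsto _).comp ?_
    refine tendsto_finsetSum _ fun i _ => tendsto_finsetSum _ fun j _ => ?_
    exact (((lim1 (A i) (hA i) t ht0.le).mul (lim1 (A j) (hA j) _ (by linarith))).mul
      tendsto_const_nhds).mul (lim1 (A j) (hA j) _ (by norm_num))
  have hlim2 : Filter.Tendsto (fun ε : ℝ => ((m : ℝ) - 1) * (c + m * k * ε))
      (nhdsWithin 0 (Set.Ioi 0)) (nhds (((m : ℝ) - 1) * c)) := by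
    have h2 : Continuous (fun ε : ℝ => ((m : ℝ) - 1) * (c + m * k * ε)) := by fun_prop
    have h3 := (h2.tendsto 0).mono_left (nhdsWithin_le_nhds (s := Set.Ioi 0))
    simpa using h3
  refine le_of_tendsto_of_tendsto hlim hlim2 ?_
  filter_upwards [self_mem_nhdsWithin] with ε hε
  exact key ε hε

/-- For nonnegative exponents the powers of a positive semidefinite matrix add up. -/
theorem pow_add_psd {n : ℕ} (M : Matrix (Fin n) (Fin n) ℂ) (hM : 0 ≤ M) (x y : ℝ) (hx : 0 ≤ x)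
    (hy : 0 ≤ y) : M ^ x * M ^ y = M ^ (x + y) := by
  rcases hx.eq_or_lt with h | hx'
  · subst h
    rw [CFC.rpow_zero M hM, one_mul, zero_add]
  rcases hy.eq_or_lt with h | hy'
  · subst h
    rw [CFC.rpow_zero M hM, mul_one, add_zero]
  lift x to NNReal using hx
  lift y to NNReal using hy
  have hx2 : 0 < x := by exact_mod_cast hx'
  have hy2 : 0 < y := by exact_mod_cast hy'
  rw [← CFC.nnrpow_eq_rpow hx2, ← CFC.nnrpow_eq_rpow hy2, ← NNReal.coe_add,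
    ← CFC.nnrpow_eq_rpow (by positivity), CFC.nnrpow_add hx2 hy2]

/-- Ky Fan form with contractions, exponents `p ≤ q`. -/
theorem kf1 {n k m : ℕ} (hm : 2 ≤ m) (A : Fin m → Matrix (Fin n) (Fin n) ℂ)
    (hA : ∀ i, 0 ≤ A i) (K : Fin m → Fin m → Matrix (Fin n) (Fin n) ℂ)
    (hK : ∀ i j, (K i j)ᴴ * K i j ≤ 1) (p q : ℝ) (hp : 0 < p) (hpq : p ≤ q)
    (G G' : Matrix (Fin n) (Fin k) ℂ) (hG : Gᴴ * G = 1) (hG' : G'ᴴ * G' = 1) (c : ℝ)
    (hc : ∀ W : Matrix (Fin n) (Fin k) ℂ, Wᴴ * W = 1 →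
      (Wᴴ * (∑ i, A i ^ (p + q)) * W).trace.re ≤ c) :
    (Gᴴ * (∑ i, ∑ j ∈ Finset.univ.erase i,
      A i ^ p * A j ^ ((q - p) / 2) * K i j * A j ^ ((p + q) / 2)) * G').trace.re
      ≤ ((m : ℝ) - 1) * c := by
  have hs : 0 < p + q := by linarith
  have h0 : 0 < p / (p + q) := by positivity
  have h1 : p / (p + q) ≤ 1 / 2 := by
    rw [div_le_div_iff₀ hs (by norm_num)]
    linarith
  have e1 : (p + q) * (p / (p + q)) = p := by field_simp
  have e2 : (p + q) * ((1 - 2 * (p / (p + q))) / 2) = (q - p) / 2 := by field_simp; ring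
  have e3 : (p + q) * (1 / 2) = (p + q) / 2 := by ring
  have f1 : ∀ i, (A i ^ (p + q)) ^ (p / (p + q)) = A i ^ p := by
    intro i
    rw [CFC.rpow_rpow_of_exponent_nonneg (A i) _ _ hs.le h0.le (hA i), e1]
  have f2 : ∀ i, (A i ^ (p + q)) ^ ((1 - 2 * (p / (p + q))) / 2) = A i ^ ((q - p) / 2) := by
    intro i
    rw [CFC.rpow_rpow_of_exponent_nonneg (A i) _ _ hs.le (by linarith) (hA i), e2]
  have f3 : ∀ i, (A i ^ (p + q)) ^ (1 / 2 : ℝ) = A i ^ ((p + q) / 2) := by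
    intro i
    rw [CFC.rpow_rpow_of_exponent_nonneg (A i) _ _ hs.le (by norm_num) (hA i), e3]
  have h := kyfan_psdm hm (fun i => A i ^ (p + q)) (fun i => CFC.rpow_nonneg) K hK
    (p / (p + q)) c h0 h1 G G' hG hG' hc
  simp only [f1, f2, f3] at h
  exact h

theorem scal_contr {n : ℕ} (z : ℂ) (hz : ‖z‖ ≤ 1) :
    (z • (1 : Matrix (Fin n) (Fin n) ℂ))ᴴ * (z • (1 : Matrix (Fin n) (Fin n) ℂ)) ≤ 1 := by
  rw [Matrix.le_iff]
  have h1 : (1 : Matrix (Fin n) (Fin n) ℂ) -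
      (z • (1 : Matrix (Fin n) (Fin n) ℂ))ᴴ * (z • (1 : Matrix (Fin n) (Fin n) ℂ)) =
      ((1 - ‖z‖ ^ 2 : ℝ) : ℂ) • (1 : Matrix (Fin n) (Fin n) ℂ) := by
    rw [conjTranspose_smul, conjTranspose_one, Matrix.smul_mul, Matrix.one_mul, smul_smul]
    have h2 : star z * z = ((‖z‖ ^ 2 : ℝ) : ℂ) := by
      have := Complex.conj_mul' z
      push_cast
      exact this
    rw [h2]
    push_cast
    rw [sub_smul, one_smul]
  rw [h1]
  refine Matrix.PosSemidef.one.smul ?_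
  have : (0 : ℝ) ≤ 1 - ‖z‖ ^ 2 := by nlinarith [norm_nonneg z]
  exact_mod_cast this

/-- Ky Fan form with scalars, exponents `p ≤ q`. -/
theorem kf2 {n k m : ℕ} (hm : 2 ≤ m) (A : Fin m → Matrix (Fin n) (Fin n) ℂ)
    (hA : ∀ i, 0 ≤ A i) (z : Fin m → Fin m → ℂ)
    (hz : ∀ i j, ‖z i j‖ ≤ 1) (p q : ℝ) (hp : 0 < p) (hpq : p ≤ q)
    (G G' : Matrix (Fin n) (Fin k) ℂ) (hG : Gᴴ * G = 1) (hG' : G'ᴴ * G' = 1) (c : ℝ)
    (hc : ∀ W : Matrix (Fin n) (Fin k) ℂ, Wᴴ * W = 1 →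
      (Wᴴ * (∑ i, A i ^ (p + q)) * W).trace.re ≤ c) :
    (Gᴴ * (∑ i, ∑ j ∈ Finset.univ.erase i, z i j • (A i ^ p * A j ^ q)) * G').trace.re
      ≤ ((m : ℝ) - 1) * c := by
  have h := kf1 hm A hA (fun i j => z i j • (1 : Matrix (Fin n) (Fin n) ℂ))
    (fun i j => scal_contr (z i j) (hz i j)) p q hp hpq G G' hG hG' c hc
  have e : ∀ i j : Fin m, A i ^ p * A j ^ ((q - p) / 2) *
      (z i j • (1 : Matrix (Fin n) (Fin n) ℂ)) * A j ^ ((p + q) / 2)
      = z i j • (A i ^ p * A j ^ q) := by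
    intro i j
    rw [Matrix.mul_smul, Matrix.mul_one, Matrix.smul_mul, Matrix.mul_assoc,
      pow_add_psd (A j) (hA j) _ _ (by linarith) (by linarith)]
    rw [show (q - p) / 2 + (p + q) / 2 = q by ring]
  simp only [e] at h
  exact h

/-- Ky Fan form with scalars, all exponents. -/
theorem kf3 {n k m : ℕ} (hm : 2 ≤ m) (A : Fin m → Matrix (Fin n) (Fin n) ℂ)
    (hA : ∀ i, 0 ≤ A i) (z : Fin m → Fin m → ℂ)
    (hz : ∀ i j, ‖z i j‖ ≤ 1) (p q : ℝ) (hp : 0 < p) (hq : 0 < q)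
    (G G' : Matrix (Fin n) (Fin k) ℂ) (hG : Gᴴ * G = 1) (hG' : G'ᴴ * G' = 1) (c : ℝ)
    (hc : ∀ W : Matrix (Fin n) (Fin k) ℂ, Wᴴ * W = 1 →
      (Wᴴ * (∑ i, A i ^ (p + q)) * W).trace.re ≤ c) :
    (Gᴴ * (∑ i, ∑ j ∈ Finset.univ.erase i, z i j • (A i ^ p * A j ^ q)) * G').trace.re
      ≤ ((m : ℝ) - 1) * c := by
  rcases le_or_gt p q with h | h
  · exact kf2 hm A hA z hz p q hp h G G' hG hG' c hc
  · have hc' : ∀ W : Matrix (Fin n) (Fin k) ℂ, Wᴴ * W = 1 →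
        (Wᴴ * (∑ i, A i ^ (q + p)) * W).trace.re ≤ c := by
      rw [add_comm q p]
      exact hc
    have h2 := kf2 hm A hA (fun i j => star (z j i)) (fun i j => by rw [norm_star]; exact hz j i)
      q p hq h.le G' G hG' hG c hc'
    have e : (Gᴴ * (∑ i, ∑ j ∈ Finset.univ.erase i, z i j • (A i ^ p * A j ^ q)) * G') =
        (G'ᴴ * (∑ i, ∑ j ∈ Finset.univ.erase i, star (z j i) • (A i ^ q * A j ^ p)) * G)ᴴ := by
      rw [conjTranspose_mul, conjTranspose_mul, conjTranspose_conjTranspose, ← Matrix.mul_assoc,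
        conjTranspose_sum]
      congr 2
      have e1 : ∀ i : Fin m,
          (∑ j ∈ Finset.univ.erase i, star (z j i) • (A i ^ q * A j ^ p))ᴴ =
          ∑ j ∈ Finset.univ.erase i, z j i • (A j ^ p * A i ^ q) := by
        intro i
        rw [conjTranspose_sum]
        refine Finset.sum_congr rfl fun j _ => ?_
        rw [conjTranspose_smul, star_star, conjTranspose_mul, j8_herm, j8_herm]
      simp only [e1]
      rw [Finset.sum_comm' (t' := Finset.univ) (s' := fun j => Finset.univ.erase j)]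
      intro x y
      simp [ne_comm]
    rw [e, trace_conjTranspose]
    simpa using h2

/-- From Ky Fan sums to every unitarily invariant norm. -/
theorem to_norm {n m : ℕ} (hm : 2 ≤ m) (N : Matrix (Fin n) (Fin n) ℂ → ℝ)
    (hh : ∀ (c : ℂ) (X : Matrix (Fin n) (Fin n) ℂ), N (c • X) = ‖c‖ * N X)
    (ht : ∀ X Y, N (X + Y) ≤ N X + N Y)
    (hu : ∀ U ∈ Matrix.unitaryGroup (Fin n) ℂ, ∀ V ∈ Matrix.unitaryGroup (Fin n) ℂ,
        ∀ X, N (U * X * V) = N X)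
    (X T : Matrix (Fin n) (Fin n) ℂ) (hT : 0 ≤ T)
    (h : ∀ (k : ℕ) (G G' : Matrix (Fin n) (Fin k) ℂ), Gᴴ * G = 1 → G'ᴴ * G' = 1 → ∀ c : ℝ,
      (∀ W : Matrix (Fin n) (Fin k) ℂ, Wᴴ * W = 1 → (Wᴴ * T * W).trace.re ≤ c) →
      (Gᴴ * X * G').trace.re ≤ ((m : ℝ) - 1) * c) :
    N X ≤ ((m : ℝ) - 1) * N T := by
  have hm2 : (2 : ℝ) ≤ m := by exact_mod_cast hm
  have hm1 : (0 : ℝ) < (m : ℝ) - 1 := by linarith
  have hT' : 0 ≤ (((m : ℝ) - 1 : ℝ) : ℂ) • T := by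
    rw [Matrix.nonneg_iff_posSemidef] at hT ⊢
    exact hT.smul (by exact_mod_cast hm1.le)
  have key := fan N hh ht hu X ((((m : ℝ) - 1 : ℝ) : ℂ) • T) hT' (by
    intro k G G' hG hG' c hc
    have hc2 : ∀ W : Matrix (Fin n) (Fin k) ℂ, Wᴴ * W = 1 →
        (Wᴴ * T * W).trace.re ≤ c / ((m : ℝ) - 1) := by
      intro W hW
      have h1 := hc W hW
      rw [Matrix.mul_smul, Matrix.smul_mul, Matrix.trace_smul, smul_eq_mul,
        Complex.re_ofReal_mul] at h1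
      rw [le_div_iff₀ hm1]
      linarith
    have h2 := h k G G' hG hG' _ hc2
    rwa [mul_div_cancel₀ _ hm1.ne'] at h2)
  rw [hh] at key
  have hn : ‖(((m : ℝ) - 1 : ℝ) : ℂ)‖ = (m : ℝ) - 1 := by
    rw [Complex.norm_real, Real.norm_of_nonneg hm1.le]
  rw [hn] at key
  exact key

end Pool.Agent.B4777
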